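import Pool.Agent.H34.ZN.Targets2
import Pool.Agent.H27.L1.H34.GZZ.ZER

/-!
Row ZES of the board zn: growth on a vertical strip of a function which is a product of linear factors
and a bounded function on a disc.
-/

set_option autoImplicit false

namespace Pool.Agent.H47.ZN

open Pool.Agent.H34.ZN

theorem pf_ZES : T_ZES := by
  intro C1 c2 σ1 H hc2 _ hH
  obtain ⟨n0, c, C, hc, hC, h⟩ := Pool.Agent.H27.L1.H34.GZZ.pf_ZER C1 c2 hc2
  refine ⟨n0, 32 * (H + 1), c, C + |C1| * (H + 1) ^ n0, hc, by positivity, by positivity, ?_⟩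
  intro Z t R hZ hR hd hl h1
  have hR0 : 0 < R := by linarith
  obtain ⟨n, z, hn, -, hup, hlo⟩ := h Z (1 / 2 + t * Complex.I) R hZ hR0 hd h1
  refine ⟨n, z, hn, fun s hs => ⟨?_, fun w hw1 hw2 => ?_⟩⟩
  · rw [← Finset.prod_mul_distrib]
    have e : (∏ i, min 1 ‖s - z i‖ * max 1 ‖s - z i‖) = ∏ i, ‖s - z i‖ :=
      Finset.prod_congr rfl fun i _ => by rw [min_mul_max, one_mul]
    rw [e]
    exact hlo s (hs.trans (by linarith))
  · have hQ1 : 1 ≤ ∏ i, max 1 ‖s - z i‖ := by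
      calc (1 : ℝ) = ∏ _i : Fin n, (1 : ℝ) := Finset.prod_const_one.symm
        _ ≤ _ := Finset.prod_le_prod (fun _ _ => zero_le_one) fun i _ => le_max_left _ _
    have hx0 : 0 ≤ ‖w - s‖ := norm_nonneg _
    have hH1 : 1 ≤ H + 1 := by linarith
    rcases le_or_gt ‖w - (1 / 2 + t * Complex.I)‖ R with hu | hu
    · have h3 := hup w hu
      have h5 : ∏ i, ‖w - z i‖ ≤ (∏ i, max 1 ‖s - z i‖) * (1 + ‖w - s‖) ^ n := by
        have h6 : ∀ i, ‖w - z i‖ ≤ max 1 ‖s - z i‖ * (1 + ‖w - s‖) := by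
          intro i
          have h7 : ‖w - z i‖ ≤ ‖w - s‖ + ‖s - z i‖ := by
            have h8 := norm_add_le (w - s) (s - z i)
            rwa [sub_add_sub_cancel] at h8
          have h8 : ‖s - z i‖ ≤ max 1 ‖s - z i‖ := le_max_right _ _
          have h9 : 1 ≤ max 1 ‖s - z i‖ := le_max_left _ _
          nlinarith
        calc ∏ i, ‖w - z i‖ ≤ ∏ i : Fin n, (max 1 ‖s - z i‖ * (1 + ‖w - s‖)) :=
              Finset.prod_le_prod (fun i _ => norm_nonneg _) fun i _ => h6 i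
          _ = _ := by
              simp only [Finset.prod_mul_distrib, Finset.prod_const, Finset.card_univ,
                Fintype.card_fin]
      calc ‖Z w‖ ≤ C * (R ^ n)⁻¹ * ((∏ i, max 1 ‖s - z i‖) * (1 + ‖w - s‖) ^ n) :=
            h3.trans (mul_le_mul_of_nonneg_left h5 (by positivity))
        _ = C * ((R ^ n)⁻¹ * ((∏ i, max 1 ‖s - z i‖) * (1 + ‖w - s‖) ^ n)) := by
            ring
        _ ≤ (C + |C1| * (H + 1) ^ n0) *
            ((R ^ n)⁻¹ * ((∏ i, max 1 ‖s - z i‖) * (1 + ‖w - s‖) ^ n)) := by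
            refine mul_le_mul_of_nonneg_right (le_add_of_nonneg_right (by positivity)) ?_
            positivity
        _ = _ := by ring
    · have h4 : R ≤ (H + 1) * (1 + ‖w - s‖) := by
        have h5 : ‖w - (1 / 2 + t * Complex.I)‖ ≤ ‖w - s‖ + ‖s - (1 / 2 + t * Complex.I)‖ := by
          have h8 := norm_add_le (w - s) (s - (1 / 2 + t * Complex.I))
          rwa [sub_add_sub_cancel] at h8
        nlinarith [mul_nonneg hH hx0]
      have h5 : R ^ n ≤ (H + 1) ^ n0 * (1 + ‖w - s‖) ^ n := by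
        refine (pow_le_pow_left₀ hR0.le h4 n).trans ?_
        rw [mul_pow]
        refine mul_le_mul_of_nonneg_right (pow_le_pow_right₀ hH1 hn) (by positivity)
      have h6 : 1 ≤ (H + 1) ^ n0 *
          ((R ^ n)⁻¹ * ((∏ i, max 1 ‖s - z i‖) * (1 + ‖w - s‖) ^ n)) := by
        have h7 : R ^ n ≤ (H + 1) ^ n0 * ((∏ i, max 1 ‖s - z i‖) * (1 + ‖w - s‖) ^ n) := by
          refine h5.trans ?_
          have h8 : (1 + ‖w - s‖) ^ n ≤ (∏ i, max 1 ‖s - z i‖) * (1 + ‖w - s‖) ^ n :=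
            le_mul_of_one_le_left (by positivity) hQ1
          exact mul_le_mul_of_nonneg_left h8 (by positivity)
        have h9 : (H + 1) ^ n0 * ((R ^ n)⁻¹ * ((∏ i, max 1 ‖s - z i‖) * (1 + ‖w - s‖) ^ n)) =
            (R ^ n)⁻¹ * ((H + 1) ^ n0 * ((∏ i, max 1 ‖s - z i‖) * (1 + ‖w - s‖) ^ n)) := by
          ring
        rw [h9, inv_mul_eq_div, one_le_div (by positivity)]
        exact h7
      calc ‖Z w‖ ≤ |C1| := (hl w hw1 hw2).trans (le_abs_self _)
        _ ≤ |C1| * ((H + 1) ^ n0 *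
            ((R ^ n)⁻¹ * ((∏ i, max 1 ‖s - z i‖) * (1 + ‖w - s‖) ^ n))) :=
            le_mul_of_one_le_right (abs_nonneg _) h6
        _ = (|C1| * (H + 1) ^ n0) *
            ((R ^ n)⁻¹ * ((∏ i, max 1 ‖s - z i‖) * (1 + ‖w - s‖) ^ n)) := by ring
        _ ≤ (C + |C1| * (H + 1) ^ n0) *
            ((R ^ n)⁻¹ * ((∏ i, max 1 ‖s - z i‖) * (1 + ‖w - s‖) ^ n)) := by
            refine mul_le_mul_of_nonneg_right (le_add_of_nonneg_left hC.le) ?_
            positivity
        _ = _ := by ring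

end Pool.Agent.H47.ZN
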